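import Mathlib

namespace Pool.Agent.Results.MP_f0da7f_al.Card

open Cardinal MvPolynomial

universe u

variable {F V : Type u} [Field F] [AddCommGroup V] [Module F V]

/-- ideals of the lattice of subspaces -/
def IsIdl (I : Set (Submodule F V)) : Prop :=
  ⊥ ∈ I ∧ ⊤ ∉ I ∧ (∀ U ∈ I, ∀ W, W ≤ U → W ∈ I) ∧ ∀ U ∈ I, ∀ W ∈ I, U ⊔ W ∈ I

/-- filters on the lattice of subspaces -/
def IsFil (I : Set (Submodule F V)) : Prop :=
  ⊤ ∈ I ∧ ⊥ ∉ I ∧ (∀ U ∈ I, ∀ W, U ≤ W → W ∈ I) ∧ ∀ U ∈ I, ∀ W ∈ I, U ⊓ W ∈ I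

def IsId {L : Type u} [Lattice L] [BoundedOrder L] (I : Set L) : Prop :=
  ⊥ ∈ I ∧ ⊤ ∉ I ∧ (∀ U ∈ I, ∀ W, W ≤ U → W ∈ I) ∧ ∀ U ∈ I, ∀ W ∈ I, U ⊔ W ∈ I

lemma low {L Λ C : Type u} [Lattice L] [BoundedOrder L] (U : Λ → C → L)
    (h1 : ∀ i c c', c ≠ c' → U i c ⊔ U i c' = ⊤)
    (h2 : ∀ (ε : Λ → C) (s : Finset Λ), ∃ T ≠ ⊤, ∀ i ∈ s, U i (ε i) ≤ T) :
    #C ^ #Λ ≤ #{I : Set L // Maximal IsId I} := by
  classical
  have : ∀ ε : Λ → C, ∃ I : Set L, Maximal IsId I ∧ ∀ i, U i (ε i) ∈ I := fun ε => by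
    obtain ⟨m, h, hm⟩ := zorn_subset_nonempty {I : Set L | IsId I} (fun c hc hch ⟨x, hx⟩ =>
      ⟨⋃₀ c, ⟨⟨x, hx, (hc hx).1⟩, fun ⟨y, hy, h⟩ => (hc hy).2.1 h,
        fun U ⟨y, hy, h⟩ W hW => ⟨y, hy, (hc hy).2.2.1 U h W hW⟩, fun U ⟨y, hy, h⟩ W ⟨z, hz, h'⟩ =>
          (hch.total hy hz).elim (fun e => ⟨z, hz, (hc hz).2.2.2 U (e h) W h'⟩)
            fun e => ⟨y, hy, (hc hy).2.2.2 U h W (e h')⟩⟩, fun s hs => Set.subset_sUnion_of_mem hs⟩)
      {W | ∃ s : Finset Λ, W ≤ s.sup fun i => U i (ε i)} ⟨⟨∅, bot_le⟩, fun ⟨s, h⟩ => by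
        obtain ⟨T, h1, h3⟩ := h2 ε s
        exact h1 (top_le_iff.1 (h.trans (Finset.sup_le h3))),
        fun U ⟨s, h⟩ W hW => ⟨s, hW.trans h⟩, fun U ⟨s, h⟩ W ⟨t, h'⟩ =>
          ⟨s ∪ t, by rw [Finset.sup_union]; exact sup_le_sup h h'⟩⟩
    exact ⟨m, hm, fun i => h ⟨{i}, by simp⟩⟩
  choose I hI hU using this
  refine mk_le_of_injective (f := fun ε : Λ → C => (⟨I ε, hI ε⟩ : {I : Set L // Maximal IsId I}))
    fun ε ε' e => funext fun i => by_contra fun h => (hI ε).1.2.1 ?_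
  have e' : I ε = I ε' := congrArg Subtype.val e
  exact h1 i _ _ h ▸ (hI ε).1.2.2.2 _ (hU ε i) _ (e' ▸ hU ε' i)

lemma eqv {V' : Type u} [AddCommGroup V'] [Module F V'] (h : ℵ₀ ≤ Module.rank F V)
    (h' : Module.rank F V' ≤ Module.rank F V) : Nonempty (V ≃ₗ[F] V × V') :=
  nonempty_linearEquiv_of_rank_eq (by rw [rank_prod', add_eq_left h h'])

lemma interp {ι : Type u} (s : Finset (ι → F)) (ε : (ι → F) → F) :
    ∃ p : MvPolynomial ι F, ∀ f ∈ s, eval f p = ε f := by
  classical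
  have : ∀ (f : ι → F) (s : Finset (ι → F)), ∃ q : MvPolynomial ι F, eval f q = 1 ∧
      ∀ g ∈ s, g ≠ f → eval g q = 0 := fun f s => by
    induction s using Finset.induction_on with
    | empty => exact ⟨1, by simp⟩
    | insert g s _ ih =>
      obtain ⟨q, h1, h2⟩ := ih
      by_cases e : g = f
      · exact ⟨q, h1, by simpa [e] using h2⟩
      obtain ⟨i, hi⟩ := Function.ne_iff.1 e
      refine ⟨q * (C (f i - g i)⁻¹ * (X i - C (g i))), by simp [h1, sub_ne_zero.2 hi.symm], ?_⟩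
      simp only [Finset.mem_insert]
      rintro k (rfl | hk) hf
      · simp
      · simp [h2 k hk hf]
  choose q h1 h2 using this
  refine ⟨∑ g ∈ s, C (ε g) * q g s, fun f hf => ?_⟩
  rw [map_sum, Finset.sum_eq_single f (fun g _ h => by simp [h2 g s f hf h.symm]) (absurd hf ·)]
  simp [h1]

lemma lowI (ι : Type u) [Infinite ι] (h : #ι = Module.rank F V) :
    2 ^ (#F ^ #ι) ≤ #{I : Set (Submodule F V) // Maximal IsIdl I} := by
  classical
  obtain ⟨e⟩ := eqv (V' := Finset (ι →₀ ℕ) →₀ MvPolynomial (ι →₀ ℕ) F) (h ▸ aleph0_le_mk ι)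
    (by simp [rank_finsupp', rank_eq_lift, ← h])
  let π := LinearMap.snd F _ _ ∘ₗ e.toLinearMap
  have hπ : Function.Surjective π := Prod.snd_surjective.comp e.surjective
  let r : (ι → F) → Finset (ι →₀ ℕ) → MvPolynomial (ι →₀ ℕ) F := fun f a =>
    ∑ μ ∈ a, C (eval f (monomial μ 1)) * X μ
  let U : (ι → F) → F → Submodule F (Finset (ι →₀ ℕ) →₀ MvPolynomial (ι →₀ ℕ) F) := fun f c =>
    ⨅ a, ((Ideal.span {r f a - C c}).restrictScalars F).comap (Finsupp.lapply a)
  let b : ULift.{u} Bool → F := fun c => if c.down then 1 else 0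
  have := low (fun f c => (U f (b c)).comap π) (fun f c c' hc => ?_) fun ε s => ?_
  · exact le_trans (by simp) this
  · have k : ∀ c a x, Finsupp.single a ((r f a - C c) * x) ∈ U f c := fun c a x => by
      simp only [U, Submodule.mem_iInf, Submodule.mem_comap, Finsupp.lapply_apply,
        Submodule.restrictScalars_mem, Finsupp.single_apply]
      intro a'
      split_ifs with e
      · exact e ▸ Ideal.mul_mem_right _ _ (Ideal.mem_span_singleton_self _)
      · exact zero_mem _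
    have t : U f 0 ⊔ U f 1 = ⊤ := eq_top_iff.2 fun v _ => by
      induction v using Finsupp.induction_linear with
      | zero => exact zero_mem _
      | add v w hv hw => exact add_mem (hv trivial) (hw trivial)
      | single a x =>
        convert sub_mem (Submodule.mem_sup_left (k 0 a x)) (Submodule.mem_sup_right (k 1 a x))
        rw [← Finsupp.single_sub]; congr 1; simp; ring
    have t' : (U f 0).comap π ⊔ (U f 1).comap π = ⊤ := eq_top_iff.2 fun v _ => by
      obtain ⟨x, hx, y, hy, e⟩ := Submodule.mem_sup.1 (t ▸ trivial : π v ∈ U f 0 ⊔ U f 1)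
      obtain ⟨w, rfl⟩ := hπ y
      exact Submodule.mem_sup.2 ⟨v - w, by simpa [← e] using hx, w, hy, by simp⟩
    rcases c with ⟨_ | _⟩ <;> rcases c' with ⟨_ | _⟩
    exacts [absurd rfl hc, t', (sup_comm _ _).trans t', absurd rfl hc]
  · obtain ⟨p, hp⟩ := interp s fun f => b (ε f)
    let φ := (aeval (R := F) fun μ => coeff μ p).toLinearMap ∘ₗ Finsupp.lapply p.support ∘ₗ π
    refine ⟨LinearMap.ker φ, fun h => ?_, fun f hf v hv => ?_⟩
    · obtain ⟨v, hv⟩ := hπ (Finsupp.single p.support 1)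
      have : v ∈ LinearMap.ker φ := h ▸ trivial
      simp [φ, hv] at this
    · obtain ⟨x, hx⟩ := Ideal.mem_span_singleton.1 ((Submodule.mem_iInf _).1 hv p.support)
      simp only [Finsupp.lapply_apply] at hx
      have : aeval (fun μ => coeff μ p) (r f p.support) = eval f p := by
        simp [r, eval_monomial, mul_comm, eval_eq f p, Finsupp.prod]
      change aeval (fun μ => coeff μ p) (π v p.support) = 0
      rw [hx, map_mul, map_sub, this, hp f hf]; simp

lemma lowF (ι : Type u) [Infinite ι] (h : #ι = Module.rank F V) :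
    #F ^ ((2 : Cardinal) ^ #ι) ≤ #{I : Set (Submodule F V) // Maximal IsFil I} := by
  classical
  obtain ⟨e⟩ := eqv (V' := (Finset ι × Finset (Finset ι)) →₀ F) (h ▸ aleph0_le_mk ι)
    (by simp [← h])
  let π := e.symm.toLinearMap ∘ₗ LinearMap.inr F _ _
  have hπ : Function.Injective π := e.symm.injective.comp LinearMap.inr_injective
  let U : Set ι → F → Submodule F ((Finset ι × Finset (Finset ι)) →₀ F) := fun i c =>
    ⨅ a : Finset ι, ⨅ s, ⨅ _ : a.filter (· ∈ i) ∉ s, LinearMap.ker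
      (Finsupp.lapply (a, insert (a.filter (· ∈ i)) s) - c • Finsupp.lapply (R := F) (a, s))
  have hU : ∀ i c v, v ∈ U i c ↔ ∀ (a : Finset ι) s, a.filter (· ∈ i) ∉ s →
      v (a, insert (a.filter (· ∈ i)) s) = c * v (a, s) := fun i c v => by simp [U, sub_eq_zero]
  have := low (L := (Submodule F V)ᵒᵈ) (fun i c => (U i c).map π) (fun i c c' hc => ?_)
    fun ε S => ?_
  · exact le_trans (by simp) this
  · change (U i c).map π ⊓ (U i c').map π = ⊥
    rw [← Submodule.map_inf _ hπ, show U i c ⊓ U i c' = ⊥ from eq_bot_iff.2 fun v hv => ?_,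
      Submodule.map_bot]
    have h1 := (hU _ _ _).1 hv.1
    have h2 := (hU _ _ _).1 hv.2
    have h3 : ∀ (a : Finset ι) s, a.filter (· ∈ i) ∉ s → v (a, s) = 0 := fun a s h =>
      mul_left_cancel₀ (sub_ne_zero.2 hc) (by linear_combination h2 a s h - h1 a s h)
    refine Finsupp.ext fun ⟨a, s⟩ => ?_
    by_cases m : a.filter (· ∈ i) ∈ s
    · rw [← Finset.insert_erase m, h1 _ _ (by simp), h3 _ _ (by simp)]; simp
    · exact h3 a s m
  · obtain ⟨a, ha⟩ : ∃ a : Finset ι, Set.InjOn (fun i : Set ι => a.filter (· ∈ i)) S := by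
      have : ∀ i j : Set ι, ∃ x, (x ∈ i ↔ x ∈ j) → i = j := fun i j => by
        by_cases e : i = j
        · exact ⟨Classical.arbitrary _, fun _ => e⟩
        · exact (not_forall.1 fun h => e (Set.ext h)).imp fun x h h' => absurd h' h
      choose x hx using this
      refine ⟨(S ×ˢ S).image fun p => x p.1 p.2, fun i hi j hj e => hx i j ?_⟩
      have m : x i j ∈ (S ×ˢ S).image fun p => x p.1 p.2 :=
        Finset.mem_image.2 ⟨(i, j), Finset.mem_product.2 ⟨hi, hj⟩, rfl⟩
      simpa [m] using Finset.ext_iff.1 e (x i j)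
    let γ : Finset ι → F := fun p => if h : ∃ i ∈ S, a.filter (· ∈ i) = p then ε h.choose else 0
    have hγ : ∀ i ∈ S, γ (a.filter (· ∈ i)) = ε i := fun i hi => by
      have h : ∃ j ∈ S, a.filter (· ∈ j) = a.filter (· ∈ i) := ⟨i, hi, rfl⟩
      simp only [γ, dif_pos h, ha h.choose_spec.1 hi h.choose_spec.2]
    let v : (Finset ι × Finset (Finset ι)) →₀ F := Finsupp.onFinset ({a} ×ˢ a.powerset.powerset)
      (fun z => if z.1 = a ∧ z.2 ⊆ a.powerset then ∏ p ∈ z.2, γ p else 0) fun z hz => by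
        by_contra h
        exact hz (if_neg (by simpa [Finset.mem_product, - Finset.singleton_product] using h))
    refine ⟨Submodule.span F {π v}, fun h => ?_, fun i hi => ?_⟩
    · have : v = 0 := hπ ((Submodule.span_singleton_eq_bot.1 h).trans (map_zero π).symm)
      simpa [v] using DFunLike.congr_fun this (a, ∅)
    · change Submodule.span F {π v} ≤ (U i (ε i)).map π
      rw [Submodule.span_singleton_le_iff_mem]
      refine ⟨v, (hU _ _ _).2 fun a' s hs => ?_, rfl⟩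
      by_cases e : a' = a
      · subst e
        simp only [v, Finsupp.onFinset_apply, true_and, Finset.insert_subset_iff,
          Finset.mem_powerset, Finset.filter_subset, Finset.prod_insert hs, hγ i hi, mul_ite,
          mul_zero]
      · simp [v, e]

lemma card_sub (ι : Type u) [Infinite ι] (b : Module.Basis ι F V) :
    #(Submodule F V) ≤ #F ^ #ι := by
  classical
  have a : #V ≤ #F ^ #ι := mk_le_of_injective (f := fun v i => b.repr v i) fun v w e =>
    b.repr.injective (Finsupp.ext (congrFun e))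
  refine (mk_le_of_surjective (f := fun f : ι → V => Submodule.span F (Set.range f))
    fun W => ?_).trans ((power_le_power_right a).trans (by rw [← power_mul, mul_eq_self (aleph0_le_mk ι)]))
  obtain ⟨g⟩ : Nonempty (Module.Basis.ofVectorSpaceIndex F W ↪ ι) := by
    rw [← le_def, (Module.Basis.ofVectorSpace F W).mk_eq_rank'', b.mk_eq_rank'']
    exact W.rank_le
  refine ⟨Function.extend g (fun j => Module.Basis.ofVectorSpace F W j) 0, le_antisymm
    (Submodule.span_le.2 ?_) ?_⟩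
  · rintro _ ⟨i, rfl⟩
    rw [Function.extend_def]
    split_ifs
    exacts [Subtype.property _, zero_mem _]
  · refine W.map_subtype_top.ge.trans ?_
    rw [← (Module.Basis.ofVectorSpace F W).span_eq, Submodule.map_span]
    refine Submodule.span_mono ?_
    rintro _ ⟨_, ⟨j, rfl⟩, rfl⟩
    exact ⟨g j, g.injective.extend_apply _ _ j⟩

lemma lin (n : Type u) [Fintype n] [DecidableEq n] :
    ∃ (ω : Submodule F (n → F) → MvPolynomial (n × n) F)
      (H : Submodule F (n → F) → Ideal (MvPolynomial (n × n) F)),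
      ∀ U W, ω W ∈ H U ↔ U ⊓ W ≠ ⊥ := by
  have : ∀ W : Submodule F (n → F), ∃ p : (n → F) →ₗ[F] (n → F), (∀ x, p x ∈ W) ∧
      ∀ x ∈ W, p x = x := fun W => by
    obtain ⟨W', h⟩ := W.exists_isCompl
    exact ⟨W.projection W' h, Submodule.projection_apply_mem h,
      fun x hx => Submodule.projection_apply_left h ⟨x, hx⟩⟩
  choose p h1 h2 using this
  refine ⟨fun W => (Matrix.mvPolynomialX n n F * (LinearMap.toMatrix' (p W)).map C +
    (LinearMap.toMatrix' (1 - p W)).map C).det, fun U => ⨅ R : (n → F) →ₗ[F] (n → F),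
      ⨅ _ : U ≤ LinearMap.ker R, RingHom.ker (eval fun z => LinearMap.toMatrix' R z.1 z.2),
    fun U W => ?_⟩
  have e : ∀ R : (n → F) →ₗ[F] (n → F), eval (fun z : n × n => LinearMap.toMatrix' R z.1 z.2)
      (Matrix.mvPolynomialX n n F * (LinearMap.toMatrix' (p W)).map C +
      (LinearMap.toMatrix' (1 - p W)).map C).det =
      (LinearMap.toMatrix' (R * p W + (1 - p W))).det := fun R => by
    rw [RingHom.map_det, map_add (LinearMap.toMatrix'), LinearMap.toMatrix'_mul]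
    congr 1
    ext i j
    simp [Matrix.mul_apply]
  simp only [Ideal.mem_iInf, RingHom.mem_ker, e]
  refine ⟨fun h hb => ?_, fun h R hR => ?_⟩
  · obtain ⟨U', a, c⟩ := (disjoint_iff.2 hb).exists_isCompl
    have := h (W.projection U' c.symm) fun x hx => Submodule.projection_apply_right c.symm ⟨x, a hx⟩
    rw [show W.projection U' c.symm * p W + (1 - p W) = 1 from LinearMap.ext fun x => by
      simp [Submodule.projection_apply_left c.symm ⟨_, h1 W x⟩]] at this
    simp at this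
  · obtain ⟨x, hx, h0⟩ := Submodule.exists_mem_ne_zero_of_ne_bot h
    refine Matrix.exists_mulVec_eq_zero_iff.1 ⟨x, h0, ?_⟩
    rw [LinearMap.toMatrix'_mulVec]
    simpa [h2 W x hx.2] using hR hx.1

lemma mem_max {I : Set (Submodule F V)} (h : Maximal IsFil I) (U : Submodule F V) :
    U ∈ I ↔ ∀ W ∈ I, U ⊓ W ≠ ⊥ := by
  obtain ⟨a1, a2, a3, a4⟩ := h.1
  refine ⟨fun hU W hW e => a2 (e ▸ a4 U hU W hW), fun hU => h.2
    (y := {T | ∃ W ∈ I, U ⊓ W ≤ T}) ⟨⟨⊤, a1, le_top⟩, fun ⟨W, b, c⟩ => hU W b (le_bot_iff.1 c),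
      fun T ⟨W, b, c⟩ T' d => ⟨W, b, c.trans d⟩, fun T ⟨W, b, c⟩ T' ⟨W', b', c'⟩ =>
        ⟨W ⊓ W', a4 _ b _ b', by rw [inf_inf_distrib_left]; exact inf_le_inf c c'⟩⟩
    (fun W b => ⟨W, b, inf_le_right⟩) ⟨⊤, a1, inf_le_left⟩⟩

lemma small {S A : Type u} {R : A → Type u} [∀ a, CommRing (R a)] [∀ a, IsNoetherianRing (R a)]
    (I : Set S) (hI : I.Nonempty) (ω : ∀ a, S → R a) :
    ∃ g : WType (fun n : A → ℕ => Σ a, Fin (n a)) → S, (∀ t, g t ∈ I) ∧ ∀ H : ∀ a, Ideal (R a),
      (∃ W ∈ I, ∀ a, ω a W ∉ H a) → ∃ t, ∀ a, ω a (g t) ∉ H a := by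
  have : ∀ J : ∀ a, Ideal (R a), ∃ W ∈ I, (∃ W ∈ I, ∀ a, ω a W ∉ J a) → ∀ a, ω a W ∉ J a :=
    fun J => by
      by_cases h : ∃ W ∈ I, ∀ a, ω a W ∉ J a
      · exact h.imp fun W h => ⟨h.1, fun _ => h.2⟩
      · exact hI.imp fun W hW => ⟨hW, fun h' => absurd h' h⟩
  choose op h1 h2 using this
  let g : WType (fun n : A → ℕ => Σ a, Fin (n a)) → S := WType.elim S fun z =>
    op fun a => Ideal.span (Set.range fun j => ω a (z.2 ⟨a, j⟩))
  refine ⟨g, fun ⟨n, c⟩ => h1 _, fun H ⟨W, hW, h⟩ => ?_⟩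
  have : ∀ a, ∃ (n : ℕ) (c : Fin n → _), Ideal.span (Set.range fun j => ω a (g (c j))) =
      Ideal.span {x | x ∈ H a ∧ ∃ t, ω a (g t) = x} := fun a => by
    obtain ⟨s, b1, b2⟩ := (Submodule.fg_span_iff_fg_span_finset_subset
      {x | x ∈ H a ∧ ∃ t, ω a (g t) = x}).1 (IsNoetherian.noetherian (R := R a) _)
    choose t ht using fun j : Fin s.card => (b1 (s.equivFin.symm j).2).2
    refine ⟨_, t, Eq.trans ?_ b2.symm⟩
    congr 1
    ext x
    simp only [ht, Set.mem_range, Finset.mem_coe]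
    exact ⟨fun ⟨j, e⟩ => e ▸ Subtype.property _, fun hx => ⟨s.equivFin ⟨x, hx⟩, by simp⟩⟩
  choose n c hc using this
  refine ⟨⟨n, fun z => c z.1 z.2⟩, fun a ha => h2 (fun a => Ideal.span
    (Set.range fun j => ω a (g (c a j)))) ⟨W, hW, fun a h' => h a ?_⟩ a ?_⟩
  · rw [hc] at h'
    exact Ideal.span_le.2 (fun x hx => hx.1) h'
  · rw [hc]
    exact Ideal.subset_span ⟨ha, ⟨n, fun z => c z.1 z.2⟩, rfl⟩

lemma upF (ι : Type u) [Infinite ι] (b : Module.Basis ι F V) :
    #{I : Set (Submodule F V) // Maximal IsFil I} ≤ #F ^ ((2 : Cardinal) ^ #ι) := by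
  classical
  choose ω H hω using fun a : Finset ι => lin (F := F) a
  let e : ∀ a : Finset ι, (a → F) →ₗ[F] V := fun a => Fintype.linearCombination F fun i => b i
  have key : ∀ U W : Submodule F V, U ⊓ W = ⊥ ↔
      ∀ a, ω a (W.comap (e a)) ∉ H a (U.comap (e a)) := fun U W => by
    simp only [hω, not_not, ← Submodule.comap_inf]
    refine ⟨fun h a => ?_, fun h => eq_bot_iff.2 fun v hv => ?_⟩
    · rw [h, Submodule.comap_bot, LinearMap.ker_eq_bot]
      exact (b.linearIndependent.comp _ Subtype.val_injective).fintypeLinearCombination_injective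
    · have : e (b.repr v).support (fun i => b.repr v i) = v := by
        conv_rhs => rw [← b.linearCombination_repr v]
        simp [e, Fintype.linearCombination_apply, Finsupp.linearCombination_apply, Finsupp.sum,
          Finset.sum_attach _ fun i => b.repr v i • b i]
      have z : (fun i : (b.repr v).support => b.repr v i) = 0 :=
        (h _).le (show e _ _ ∈ U ⊓ W by rwa [this])
      rw [← this, z, map_zero]
      rfl
  choose g g1 g2 using fun I : {I : Set (Submodule F V) // Maximal IsFil I} =>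
    small I.1 ⟨⊤, I.2.1.1⟩ fun a W => ω a (W.comap (e a))
  have k : ∀ I U, U ∈ I.1 ↔ ∀ t, U ⊓ g I t ≠ ⊥ := fun I U => by
    rw [mem_max I.2]
    refine ⟨fun h t => h _ (g1 I t), fun h W hW e => ?_⟩
    obtain ⟨t, ht⟩ := g2 I _ ⟨W, hW, (key U W).1 e⟩
    exact h t ((key U _).2 ht)
  refine (mk_le_of_injective (f := g) fun I J h => Subtype.ext (Set.ext fun U => by
    rw [k, k, h])).trans ?_
  have i0 := aleph0_le_mk ι
  have i1 : #ι ≤ 2 ^ #ι := (cantor _).le
  have w : #(WType fun n : Finset ι → ℕ => Σ a, Fin (n a)) ≤ 2 ^ #ι := by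
    refine WType.cardinalMk_le_of_le ((sum_le_sum _ (fun _ => 2 ^ #ι) fun n => ?_).trans ?_)
    · refine (power_le_power_left (power_ne_zero _ two_ne_zero) (c := #ι) ?_).trans
        (by rw [← power_mul, mul_eq_self i0])
      exact (mk_le_of_injective (f := fun z => (z.1, z.2.1)) fun ⟨a, i⟩ ⟨a', j⟩ h => by
        obtain ⟨rfl, h⟩ := Prod.mk.inj h
        exact congrArg _ (Fin.ext h)).trans (by simp)
    · simp [power_eq_two_power i0 (by simp) i0, mul_eq_self (i0.trans i1)]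
  rw [← power_def]
  refine (power_le_power_right (card_sub ι b)).trans ?_
  rw [← power_mul]
  refine power_le_power_left (mk_ne_zero F) ((mul_le_mul' i1 w).trans ?_)
  rw [mul_eq_self (i0.trans i1)]

theorem result (h : ℵ₀ ≤ Module.rank F V) :
    #{I : Set (Submodule F V) // Maximal IsIdl I} = 2 ^ (#F ^ Module.rank F V) ∧
    #{I : Set (Submodule F V) // Maximal IsFil I} = #F ^ ((2 : Cardinal) ^ Module.rank F V) := by
  have b := Module.Basis.ofVectorSpace F V
  have e := b.mk_eq_rank''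
  have := infinite_iff.2 (h.trans e.ge)
  refine ⟨le_antisymm ((mk_subtype_le _).trans ?_) (e ▸ lowI _ e),
    le_antisymm (e ▸ upF _ b) (e ▸ lowF _ e)⟩
  rw [mk_set, ← e]
  exact power_le_power_left two_ne_zero (card_sub _ b)

end Pool.Agent.Results.MP_f0da7f_al.Card
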